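import Mathlib
import Pool.Agent.Q63.KU.Dec

/-!
# The Tate conjecture for complete intersections of four diagonal quadrics, two diagonal cubics and two
diagonal quartics

Let `X` be a smooth complete intersection, of dimension two, of
* four diagonal quadrics `∑ c_i x_i ^ 2 = 0` in `P^6`, or
* two diagonal cubics `∑ c_i x_i ^ 3 = 0` in `P^4`, or
* two diagonal quartics `∑ c_i x_i ^ 4 = 0` in `P^4`

over any finitely generated field `k` (of any characteristic not dividing the degree `m`; enlarging `k`
we may assume that it contains the `m`-th roots of unity). These are simply connected surfaces of general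
type, with `K_X = O(1)`, `O(1)` and `O(3)`, which depend on `6`, `2` and `2` parameters. Then the Tate
conjecture is true for `X`: all Galois invariant classes in `H^2(X, ℚ_ℓ(1))` are linear combinations of
classes of divisors.

`X` is a covering of the plane with the group `(μ_m)^r/μ_m`, branched over `r` lines in general position
(`r = 7`, `5`, `5`). For a character `a` of this group, with kernel `N_a`, the surface `X/N_a` is the
cyclic covering of the plane, branched over the `r` lines with the exponents `a`, and it has the
geometric genus `geomGenus m r a`. This number is at most one in all cases, and `X/N_a` is a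
rational surface or a (singular, rational double points and blow-ups) K3 surface:
double planes branched over six lines; triple planes branched over five lines with exponents
`(2,2,2,2,1)`; quadruple planes with exponents `(3,3,2,2,2)`, `(3,3,3,2,1)`, `(3,3,3,3,0)`. The Tate conjecture is
known for K3 surfaces over all finitely generated fields.
-/

set_option autoImplicit false

namespace Pool.Agent.Results.MP_1bad5e_ag.DiagonalCompleteIntersections

open Pool.Agent.Q63.KU

theorem result {F V Γ : Type} [Field F] [IsAlgClosed F] [CharZero F] [AddCommGroup V] [Module F V]
    [Group Γ] (m r : ℕ) (h : KTypes m r)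
    (ρ : Representation F (Multiplicative (Fin r → ZMod m)) V) (γ : Representation F Γ V)
    (A : Submodule F V) (hD : TateData m r ρ γ A) :
    ∀ v, (∀ s, γ s v = v) → v ∈ A := by
  have hm : NeZero m := ⟨by rcases h with ⟨rfl, -⟩ | ⟨rfl, -⟩ | ⟨rfl, -⟩ <;> norm_num⟩
  let U : Submodule F V :=
    { carrier := {v | ∀ s, γ s v = v}
      add_mem' := fun {x y} hx hy s => by rw [map_add, hx, hy]
      zero_mem' := fun s => map_zero _
      smul_mem' := fun c x hx s => by rw [map_smul, hx] }
  have hU : U ≤ A := by
    refine le_of_kernels (ρ := ρ) hD.diag ?_ ?_
    · intro g u hu s
      rw [← hD.comm, hu]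
    · intro a ha v hv hN
      exact hD.known a ha (genus_le h a ha) v hv hN
  exact fun v hv => hU hv

end Pool.Agent.Results.MP_1bad5e_ag.DiagonalCompleteIntersections
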